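import Pool.Agent.W475.BG.Stm
import Pool.Agent.W112.BH.VAR

set_option autoImplicit false

namespace Pool.Agent.W836.BG

open Complex MeasureTheory Filter Topology Set
open Pool.Agent.W475.BG
open Pool.Agent.W475.BH (PP Gk)

lemma norm_cc (D : Dat) (κ : ℝ) (m : ℕ) : ‖cc D κ m‖ = 1 := by
  unfold cc
  rw [mul_comm, Complex.norm_exp_ofReal_mul_I]

lemma norm_cc' (κ : ℝ) (m : ℕ) : ‖Pool.Agent.W475.BH.cc κ m‖ = 1 := by
  unfold Pool.Agent.W475.BH.cc
  rw [mul_comm, Complex.norm_exp_ofReal_mul_I]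

lemma norm_aw (D : Dat) (κ A B W : ℝ) (n p : ℕ) :
    ‖aw D κ A B W n p‖ = ‖D.a n‖ * ‖D.a p‖ * ‖Pool.Agent.W475.BH.aw κ A B W n p‖ := by
  unfold aw Pool.Agent.W475.BH.aw
  simp only [norm_mul, RCLike.norm_conj, norm_cc, norm_cc']
  ring

/-- decay in `m` of any order -/
lemma aw_mulB {κ A B W β : ℝ} (hκ : 0 < κ) (hAB : A ≤ B) (hW : 1 ≤ W) {m p : ℕ}
    (hm : 2 ≤ m) (hp : 1 ≤ p) :
    ‖Pool.Agent.W475.BH.aw κ A B W (p * m) p‖ ≤
      (2 * Real.sqrt (Real.pi / (2 * κ)) * Real.exp (β ^ 2 / (2 * κ)) /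
      Real.log 2) / W * (1 / (p : ℝ)) * (m : ℝ) ^ (-β) := by
  have hm0 : (2 : ℝ) ≤ m := by exact_mod_cast hm
  have hm00 : (0 : ℝ) < m := by linarith
  have hp0 : (0 : ℝ) < p := by exact_mod_cast hp
  have hl2 : 0 < Real.log 2 := Real.log_pos (by norm_num)
  have hlm : Real.log 2 ≤ Real.log m := Real.log_le_log (by norm_num) hm0
  have hne : p * m ≠ p := by
    intro h
    have : p * 1 < p * m := Nat.mul_lt_mul_of_pos_left (by omega) (by omega)
    omega
  have h1 := Pool.Agent.W112.BH.aw_bd (W := W) hκ hAB hW (n := p * m) (p := p) (by nlinarith) hp hne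
  have hs : Real.log (((p * m : ℕ) : ℝ) / p) = Real.log m := by
    congr 1
    push_cast
    field_simp
  rw [hs] at h1
  refine h1.trans ?_
  have h2 : (((p * m : ℕ) : ℝ) * p) ^ (-(1 / 2) : ℝ) * Real.exp (-(κ * Real.log m ^ 2 / 2)) ≤
      1 / (p : ℝ) * (m : ℝ) ^ (-β) * Real.exp (β ^ 2 / (2 * κ)) := by
    have h3 : (((p * m : ℕ) : ℝ) * p) ^ (-(1 / 2) : ℝ) =
        1 / (p : ℝ) * Real.exp (-(Real.log m / 2)) := by
      rw [Real.rpow_def_of_pos (by push_cast; positivity)]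
      have h4 : Real.log (((p * m : ℕ) : ℝ) * p) = 2 * Real.log p + Real.log m := by
        push_cast
        rw [Real.log_mul (by positivity) (by positivity), Real.log_mul (by positivity) (by positivity)]
        ring
      rw [h4]
      have h5 : (1 : ℝ) / p = Real.exp (-Real.log p) := by
        rw [Real.exp_neg, Real.exp_log hp0]; ring
      rw [h5, ← Real.exp_add]
      congr 1; ring
    have h6 : (m : ℝ) ^ (-β) = Real.exp (-(β * Real.log m)) := by
      rw [Real.rpow_def_of_pos hm00]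
      congr 1; ring
    rw [h3, h6, mul_assoc, mul_assoc, ← Real.exp_add, ← Real.exp_add]
    apply mul_le_mul_of_nonneg_left _ (by positivity)
    apply Real.exp_le_exp.mpr
    have h7 : 0 ≤ κ / 2 * (Real.log m - β / κ) ^ 2 := by positivity
    have h8 : κ / 2 * (Real.log m - β / κ) ^ 2 =
        κ * Real.log m ^ 2 / 2 - β * Real.log m + β ^ 2 / (2 * κ) := by
      field_simp
      ring
    linarith
  have h9 : min 1 (2 / (W * |Real.log m|)) ≤ 2 / (W * Real.log 2) := by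
    refine (min_le_right _ _).trans ?_
    rw [abs_of_pos (by linarith)]
    gcongr
  have h90 : 0 ≤ min 1 (2 / (W * |Real.log m|)) :=
    le_min zero_le_one (by positivity)
  calc Real.sqrt (Real.pi / (2 * κ)) * (((p * m : ℕ) : ℝ) * p) ^ (-(1 / 2) : ℝ) *
      Real.exp (-(κ * Real.log m ^ 2 / 2)) * min 1 (2 / (W * |Real.log m|))
      = Real.sqrt (Real.pi / (2 * κ)) * ((((p * m : ℕ) : ℝ) * p) ^ (-(1 / 2) : ℝ) *
      Real.exp (-(κ * Real.log m ^ 2 / 2))) * min 1 (2 / (W * |Real.log m|)) := by ring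
    _ ≤ Real.sqrt (Real.pi / (2 * κ)) * (1 / (p : ℝ) * (m : ℝ) ^ (-β) *
      Real.exp (β ^ 2 / (2 * κ))) * (2 / (W * Real.log 2)) := by
        apply mul_le_mul _ h9 h90 (by positivity)
        exact mul_le_mul_of_nonneg_left h2 (Real.sqrt_nonneg _)
    _ = _ := by
        have hW0 : 0 < W := by linarith
        field_simp

theorem var (D : Dat) (hD : Ok D) (hM : Pool.Agent.W475.BH.S_MV) (h1 : S_D1 D) : S_VAR D := by
  classical
  intro κ hκ a b γ ha hab hbγ hγ
  obtain ⟨C0, hC0, hMV⟩ := hM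
  obtain ⟨C2, Q0, hC2, hQ0, hD1⟩ := h1 κ hκ
  obtain ⟨A, hA0, hA⟩ := hD.gr
  obtain ⟨C1, hC1⟩ : ∃ C1, C1 = Real.sqrt (Real.pi / (2 * κ)) := ⟨_, rfl⟩
  have hC1p : 0 < C1 := by rw [hC1]; exact Real.sqrt_pos.mpr (by positivity)
  have hC1s : C1 ^ 2 = Real.pi / (2 * κ) := by rw [hC1]; exact Real.sq_sqrt (by positivity)
  have hl2 : 0 < Real.log 2 := Real.log_pos (by norm_num)
  obtain ⟨β, hβ⟩ : ∃ β, β = 3 * A + 2 + 1 / a := ⟨_, rfl⟩
  obtain ⟨K, hK⟩ : ∃ K, K = 2 * C1 * Real.exp (β ^ 2 / (2 * κ)) / Real.log 2 := ⟨_, rfl⟩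
  have hKp : 0 < K := by rw [hK]; positivity
  obtain ⟨Cs, hCs⟩ : ∃ Cs, Cs = ∑' m : ℕ, 1 / (m : ℝ) ^ 2 := ⟨_, rfl⟩
  have hsum : Summable (fun m : ℕ => 1 / (m : ℝ) ^ 2) :=
    Real.summable_one_div_nat_pow.mpr (by norm_num)
  have hCs0 : 0 ≤ Cs := by rw [hCs]; exact tsum_nonneg (fun m => by positivity)
  have hγ0 : 0 < γ := by linarith
  have hev : ∀ᶠ T : ℝ in atTop, 2 ≤ T ∧ Q0 ≤ T ^ a ∧
      Real.log T ^ 2 ≤ (a * Real.log T) ^ (5 / 2 : ℝ) ∧
      (3 + 2 * A) * Real.log T ≤ (T / (4 * (T ^ γ) ^ 2)) ^ 2 := by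
    have e1 : ∀ᶠ T : ℝ in atTop, Q0 ≤ T ^ a :=
      (tendsto_rpow_atTop ha).eventually_ge_atTop Q0
    have e2 := (isLittleO_log_rpow_atTop (show 0 < 2 * (1 - 2 * γ) by linarith)).bound
      (show (0 : ℝ) < 1 / (16 * (3 + 2 * A)) by positivity)
    have e3 : ∀ᶠ T : ℝ in atTop, (1 / (a ^ (5 / 2 : ℝ))) ^ 2 ≤ Real.log T :=
      Real.tendsto_log_atTop.eventually_ge_atTop _
    filter_upwards [e1, e2, e3, eventually_ge_atTop 2] with T hT1 hT2 hTl hT3
    have hT0 : 0 < T := by linarith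
    have hl0 : 0 < Real.log T := Real.log_pos (by linarith)
    refine ⟨hT3, hT1, ?_, ?_⟩
    · rw [Real.mul_rpow ha.le hl0.le]
      have ha5 : 0 < a ^ (5 / 2 : ℝ) := by positivity
      have h1 : 1 / (a ^ (5 / 2 : ℝ)) ≤ Real.log T ^ (1 / 2 : ℝ) := by
        rw [← Real.sqrt_eq_rpow]
        exact Real.le_sqrt_of_sq_le hTl
      have h2 : Real.log T ^ (5 / 2 : ℝ) = Real.log T ^ 2 * Real.log T ^ (1 / 2 : ℝ) := by
        rw [← Real.rpow_natCast, ← Real.rpow_add hl0]
        norm_num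
      rw [h2]
      have h3 : 1 ≤ a ^ (5 / 2 : ℝ) * Real.log T ^ (1 / 2 : ℝ) := by
        rw [div_le_iff₀ ha5] at h1
        linarith
      calc Real.log T ^ 2 = Real.log T ^ 2 * 1 := by ring
        _ ≤ Real.log T ^ 2 * (a ^ (5 / 2 : ℝ) * Real.log T ^ (1 / 2 : ℝ)) := by gcongr
        _ = _ := by ring
    · rw [Real.norm_eq_abs, Real.norm_eq_abs, abs_of_pos (Real.rpow_pos_of_pos hT0 _),
        abs_of_pos hl0] at hT2
      have h3 : (T / (4 * (T ^ γ) ^ 2)) ^ 2 = T ^ (2 * (1 - 2 * γ)) / 16 := by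
        have h4 : (T ^ γ) ^ 2 = T ^ (2 * γ) := by
          rw [← Real.rpow_natCast, ← Real.rpow_mul hT0.le]
          congr 1; push_cast; ring
        have h5 : T / (4 * (T ^ γ) ^ 2) = T ^ (1 - 2 * γ) / 4 := by
          rw [h4, Real.rpow_sub hT0, Real.rpow_one]
          field_simp
        rw [h5, div_pow, ← Real.rpow_natCast, ← Real.rpow_mul hT0.le]
        norm_num
        congr 1; ring
      rw [h3]
      have h6 : 0 < 3 + 2 * A := by linarith
      calc (3 + 2 * A) * Real.log T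
          ≤ (3 + 2 * A) * (1 / (16 * (3 + 2 * A)) * T ^ (2 * (1 - 2 * γ))) := by gcongr
        _ = _ := by field_simp
  obtain ⟨T0, hT0⟩ := hev.exists_forall_of_atTop
  refine ⟨C0 * (C1 ^ 2 * C2 + 2 * K ^ 2 * Cs + C1 ^ 2), max T0 2, by positivity,
    le_max_right _ _, ?_⟩
  intro T hT W hW hWT
  obtain ⟨hT2, hTa, hTl, hTe⟩ := hT0 T (le_trans (le_max_left _ _) hT)
  have hTp : 0 < T := by linarith
  have hT1 : 1 ≤ T := by linarith
  have hlT : 0 < Real.log T := Real.log_pos (by linarith)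
  have hW0 : 0 < W := by linarith
  have hAB : a * Real.log T ≤ b * Real.log T := by gcongr
  obtain ⟨P0, hP0⟩ : ∃ P0, P0 = ∑ p ∈ PP a b T, ‖D.a p‖ ^ 2 / (p : ℝ) := ⟨_, rfl⟩
  have hP0n : 0 ≤ P0 := by rw [hP0]; exact Finset.sum_nonneg fun p _ => by positivity
  rw [← hP0]
  obtain ⟨M, hMd⟩ : ∃ M, M = ⌊T ^ γ⌋₊ := ⟨_, rfl⟩
  rw [← hMd]
  have hMT : (M : ℝ) ≤ T ^ γ := by rw [hMd]; exact Nat.floor_le (by positivity)
  have hMT2 : (M : ℝ) ≤ T ^ (1 / 2 : ℝ) :=
    hMT.trans (Real.rpow_le_rpow_of_exponent_le hT1 (by linarith))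
  have hPP : ∀ p ∈ PP a b T, p.Prime ∧ T ^ a ≤ (p : ℝ) ∧ (p : ℝ) ≤ T ^ γ ∧ p ≤ M ∧
      W ≤ Real.log p ^ (5 / 2 : ℝ) := by
    intro p hp
    unfold Pool.Agent.W475.BH.PP at hp
    rw [Finset.mem_filter] at hp
    obtain ⟨_, hpp, hp1, hp2⟩ := hp
    have hp0 : (0 : ℝ) < p := by exact_mod_cast hpp.pos
    have h3 : (p : ℝ) ≤ T ^ γ := by
      rw [← Real.log_le_log_iff hp0 (by positivity), Real.log_rpow hTp]
      nlinarith
    have h4 : T ^ a ≤ (p : ℝ) := by
      rw [← Real.log_le_log_iff (by positivity) hp0, Real.log_rpow hTp]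
      linarith
    refine ⟨hpp, h4, h3, ?_, ?_⟩
    · rw [hMd]
      exact Nat.le_floor h3
    · calc W ≤ Real.log T ^ 2 := hWT
        _ ≤ (a * Real.log T) ^ (5 / 2 : ℝ) := hTl
        _ ≤ Real.log p ^ (5 / 2 : ℝ) :=
          Real.rpow_le_rpow (by positivity) (by linarith) (by norm_num)
  have hcard : ((PP a b T).card : ℝ) ≤ T ^ (1 / 2 : ℝ) := by
    refine le_trans ?_ hMT2
    have : (PP a b T).card ≤ M := by
      calc (PP a b T).card ≤ (Finset.Icc 1 M).card := by
            apply Finset.card_le_card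
            intro p hp
            rw [Finset.mem_Icc]
            exact ⟨(hPP p hp).1.one_lt.le, (hPP p hp).2.2.2.1⟩
        _ = M := by rw [Nat.card_Icc]; simp
    exact_mod_cast this
  obtain ⟨s, hs⟩ : ∃ s, s = ((Finset.Icc 1 M) ×ˢ PP a b T).filter (fun q => q.1 ≠ q.2) :=
    ⟨_, rfl⟩
  rw [← hs]
  have hsm : ∀ q ∈ s, 1 ≤ q.1 ∧ q.1 ≤ M ∧ q.2 ∈ PP a b T ∧ q.1 ≠ q.2 := by
    intro q hq
    rw [hs, Finset.mem_filter, Finset.mem_product, Finset.mem_Icc] at hq
    exact ⟨hq.1.1.1, hq.1.1.2, hq.1.2, hq.2⟩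
  have hmv := hMV (ℕ × ℕ) s
    (fun q => aw D κ (a * Real.log T) (b * Real.log T) W q.1 q.2) (fun q => q.1) (fun q => q.2)
    (T ^ γ) T (by linarith) (by
      intro q hq
      obtain ⟨q1, q2, q3, q4⟩ := hsm q hq
      obtain ⟨q5, q6, q7, q8, q9⟩ := hPP _ q3
      refine ⟨q1, q5.one_lt.le, le_trans (by exact_mod_cast q2) hMT, q7⟩)
  refine hmv.trans ?_
  have hdiag := Pool.Agent.W112.BH.diag_split (Finset.Icc 1 M) (PP a b T) M
    (fun n hn => Finset.mem_Icc.mp hn)
    (fun p hp => (hPP p hp).1)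
    (fun q => ‖aw D κ (a * Real.log T) (b * Real.log T) W q.1 q.2‖) (fun q => norm_nonneg _)
  rw [← hs] at hdiag
  have hDg : ∑ q ∈ s, ‖aw D κ (a * Real.log T) (b * Real.log T) W q.1 q.2‖ ^ 2 ≤
      C1 ^ 2 * C2 * (P0 / W) := by
    calc ∑ q ∈ s, ‖aw D κ (a * Real.log T) (b * Real.log T) W q.1 q.2‖ ^ 2
        ≤ ∑ q ∈ s, C1 ^ 2 * ((‖D.a q.2‖ ^ 2 / (q.2 : ℝ)) * (‖D.a q.1‖ ^ 2 / (q.1 : ℝ) *
      Real.exp (-(κ * Real.log ((q.1 : ℝ) / q.2) ^ 2)) *
      min 1 (4 / (W * Real.log ((q.1 : ℝ) / q.2)) ^ 2))) := by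
          apply Finset.sum_le_sum
          intro q hq
          obtain ⟨q1, q2, q3, q4⟩ := hsm q hq
          obtain ⟨q5, q6, q7, q8, q9⟩ := hPP _ q3
          rw [hC1s, norm_aw]
          have h5 := Pool.Agent.W112.BH.aw_sq (κ := κ) (W := W) hκ hAB hW q1 q5.one_lt.le q4
          calc (‖D.a q.1‖ * ‖D.a q.2‖ *
              ‖Pool.Agent.W475.BH.aw κ (a * Real.log T) (b * Real.log T) W q.1 q.2‖) ^ 2
              = (‖D.a q.1‖ ^ 2 * ‖D.a q.2‖ ^ 2) *
              ‖Pool.Agent.W475.BH.aw κ (a * Real.log T) (b * Real.log T) W q.1 q.2‖ ^ 2 := by ring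
            _ ≤ (‖D.a q.1‖ ^ 2 * ‖D.a q.2‖ ^ 2) * _ :=
              mul_le_mul_of_nonneg_left h5 (by positivity)
            _ = _ := by ring
      _ = ∑ p ∈ PP a b T, ∑ n ∈ (Finset.Icc 1 M).filter (fun n => n ≠ p),
          C1 ^ 2 * ((‖D.a p‖ ^ 2 / (p : ℝ)) * (‖D.a n‖ ^ 2 / (n : ℝ) *
      Real.exp (-(κ * Real.log ((n : ℝ) / p) ^ 2)) *
      min 1 (4 / (W * Real.log ((n : ℝ) / p)) ^ 2))) := by
          rw [hs, Finset.sum_filter, Finset.sum_product_right]
          apply Finset.sum_congr rfl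
          intro p hp
          rw [Finset.sum_filter]
      _ ≤ ∑ p ∈ PP a b T, C1 ^ 2 * ((‖D.a p‖ ^ 2 / (p : ℝ)) * (C2 / W)) := by
          apply Finset.sum_le_sum
          intro p hp
          rw [← Finset.mul_sum, ← Finset.mul_sum]
          have := hD1 p M W (hTa.trans (hPP p hp).2.1) hW (hPP p hp).2.2.2.2
          gcongr
      _ = C1 ^ 2 * C2 * (P0 / W) := by
          rw [← Finset.mul_sum, ← Finset.sum_mul, ← hP0]
          ring
  -- one term
  have hone : ∀ p ∈ PP a b T, ∀ m : ℕ, 2 ≤ m →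
      ‖aw D κ (a * Real.log T) (b * Real.log T) W (p * m) p‖ ≤
        (K / W * (‖D.a p‖ ^ 2 / (p : ℝ)) + K / T) * (1 / (m : ℝ) ^ 2) := by
    intro p hp m hm
    obtain ⟨q5, q6, q7, q8, q9⟩ := hPP p hp
    have hp0 : (0 : ℝ) < p := by exact_mod_cast q5.pos
    have hp1 : (1 : ℝ) ≤ p := by exact_mod_cast q5.one_lt.le
    have hm1 : (1 : ℝ) ≤ m := by exact_mod_cast (show 1 ≤ m by omega)
    have hm0 : (0 : ℝ) < m := by linarith
    have h5 := aw_mulB (κ := κ) (β := β) (W := W) hκ hAB hW hm q5.one_lt.le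
    rw [← hC1, ← hK] at h5
    rw [norm_aw]
    have hm2 : (1 : ℝ) / (m : ℝ) ^ 2 = (m : ℝ) ^ (-2 : ℝ) := by
      rw [Real.rpow_neg hm0.le, one_div]
      norm_cast
    by_cases hpm : p ∣ m
    · have hpm' : (p : ℝ) ≤ m := by exact_mod_cast Nat.le_of_dvd (by omega) hpm
      have h6 : ‖D.a (p * m)‖ ≤ (m : ℝ) ^ (2 * A) := by
        refine (hA (p * m) (by nlinarith [q5.one_lt.le])).trans ?_
        rw [Real.rpow_mul hm0.le]
        apply Real.rpow_le_rpow (by positivity) _ hA0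
        push_cast
        rw [Real.rpow_two, sq]
        gcongr
      have h7 : ‖D.a p‖ ≤ (m : ℝ) ^ A :=
        (hA p q5.one_lt.le).trans (Real.rpow_le_rpow hp0.le hpm' hA0)
      have h8 : (m : ℝ) ^ (2 * A) * (m : ℝ) ^ A * (m : ℝ) ^ (-β) =
          (m : ℝ) ^ (-2 : ℝ) * (m : ℝ) ^ (-(1 / a)) := by
        rw [← Real.rpow_add hm0, ← Real.rpow_add hm0, ← Real.rpow_add hm0, hβ]
        congr 1; ring
      have h9 : (m : ℝ) ^ (-(1 / a)) ≤ 1 / T := by
        rw [Real.rpow_neg hm0.le, ← one_div]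
        apply one_div_le_one_div_of_le hTp
        calc T = (T ^ a) ^ (1 / a) := by
              rw [← Real.rpow_mul hTp.le, mul_one_div_cancel ha.ne', Real.rpow_one]
          _ ≤ (m : ℝ) ^ (1 / a) :=
              Real.rpow_le_rpow (by positivity) (q6.trans hpm') (by positivity)
      calc ‖D.a (p * m)‖ * ‖D.a p‖ * _
          ≤ (m : ℝ) ^ (2 * A) * (m : ℝ) ^ A * (K / W * (1 / (p : ℝ)) * (m : ℝ) ^ (-β)) := by
            apply mul_le_mul _ h5 (norm_nonneg _) (by positivity)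
            exact mul_le_mul h6 h7 (norm_nonneg _) (by positivity)
        _ = (K / W * (1 / (p : ℝ))) * ((m : ℝ) ^ (2 * A) * (m : ℝ) ^ A * (m : ℝ) ^ (-β)) := by ring
        _ = (K / W * (1 / (p : ℝ))) * ((m : ℝ) ^ (-2 : ℝ) * (m : ℝ) ^ (-(1 / a))) := by rw [h8]
        _ ≤ K * ((m : ℝ) ^ (-2 : ℝ) * (1 / T)) := by
            have h10 : K / W * (1 / (p : ℝ)) ≤ K := by
              have e1 : K / W ≤ K := div_le_self hKp.le hW
              have e2 : 1 / (p : ℝ) ≤ 1 := by rw [div_le_one hp0]; exact hp1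
              calc K / W * (1 / (p : ℝ)) ≤ K * 1 := by gcongr
                _ = K := mul_one K
            gcongr
        _ = K / T * (1 / (m : ℝ) ^ 2) := by rw [hm2]; ring
        _ ≤ _ := by
            apply mul_le_mul_of_nonneg_right _ (by positivity)
            have : 0 ≤ K / W * (‖D.a p‖ ^ 2 / (p : ℝ)) := by positivity
            linarith
    · rw [hD.mult p m q5 (by omega) hpm, norm_mul]
      have h6 : ‖D.a m‖ ≤ (m : ℝ) ^ A := hA m (by omega)
      have h8 : (m : ℝ) ^ A * (m : ℝ) ^ (-β) ≤ (m : ℝ) ^ (-2 : ℝ) := by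
        rw [← Real.rpow_add hm0]
        apply Real.rpow_le_rpow_of_exponent_le hm1
        rw [hβ]
        have : 0 < 1 / a := by positivity
        linarith
      calc ‖D.a p‖ * ‖D.a m‖ * ‖D.a p‖ * _
          ≤ ‖D.a p‖ * (m : ℝ) ^ A * ‖D.a p‖ * (K / W * (1 / (p : ℝ)) * (m : ℝ) ^ (-β)) := by
            apply mul_le_mul _ h5 (norm_nonneg _) (by positivity)
            gcongr
        _ = (K / W * (‖D.a p‖ ^ 2 / (p : ℝ))) * ((m : ℝ) ^ A * (m : ℝ) ^ (-β)) := by ring
        _ ≤ (K / W * (‖D.a p‖ ^ 2 / (p : ℝ))) * (m : ℝ) ^ (-2 : ℝ) :=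
            mul_le_mul_of_nonneg_left h8 (by positivity)
        _ ≤ _ := by
            rw [hm2]
            apply mul_le_mul_of_nonneg_right _ (by positivity)
            have : 0 ≤ K / T := by positivity
            linarith
  have hMu : ∑ m ∈ Finset.Icc 2 M, (∑ j ∈ s,
      (if j.1 = j.2 * m then ‖aw D κ (a * Real.log T) (b * Real.log T) W j.1 j.2‖ else 0)) ^ 2 ≤
      2 * K ^ 2 * Cs * (P0 / W) ^ 2 + 2 * K ^ 2 * Cs / T := by
    calc _ ≤ ∑ m ∈ Finset.Icc 2 M, (2 * K ^ 2 * (P0 / W) ^ 2 + 2 * K ^ 2 / T) *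
          (1 / (m : ℝ) ^ 2) := by
          apply Finset.sum_le_sum
          intro m hm
          rw [Finset.mem_Icc] at hm
          have hm0 : (0 : ℝ) < m := by exact_mod_cast (show 0 < m by omega)
          have hm1 : (1 : ℝ) ≤ m := by exact_mod_cast (show 1 ≤ m by omega)
          have h4 : ∑ j ∈ s, (if j.1 = j.2 * m then
              ‖aw D κ (a * Real.log T) (b * Real.log T) W j.1 j.2‖ else 0) ≤
              (K * (P0 / W) + K * (T ^ (1 / 2 : ℝ) / T)) * (1 / (m : ℝ) ^ 2) := by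
            calc _ ≤ ∑ j ∈ s, (if j.1 = j.2 * m then
                  (K / W * (‖D.a j.2‖ ^ 2 / (j.2 : ℝ)) + K / T) * (1 / (m : ℝ) ^ 2) else 0) := by
                  apply Finset.sum_le_sum
                  intro j hj
                  obtain ⟨q1, q2, q3, q4⟩ := hsm j hj
                  split_ifs with h5
                  · rw [h5]
                    exact hone _ q3 m hm.1
                  · exact le_rfl
              _ ≤ ∑ j ∈ (Finset.Icc 1 M) ×ˢ PP a b T, (if j.1 = j.2 * m then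
                  (K / W * (‖D.a j.2‖ ^ 2 / (j.2 : ℝ)) + K / T) * (1 / (m : ℝ) ^ 2) else 0) := by
                  rw [hs]
                  apply Finset.sum_le_sum_of_subset_of_nonneg (Finset.filter_subset _ _)
                  intro j _ _
                  split_ifs <;> positivity
              _ = ∑ p ∈ PP a b T, ∑ n ∈ Finset.Icc 1 M, (if n = p * m then
                  (K / W * (‖D.a p‖ ^ 2 / (p : ℝ)) + K / T) * (1 / (m : ℝ) ^ 2) else 0) := by
                  rw [Finset.sum_product_right]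
              _ ≤ ∑ p ∈ PP a b T, (K / W * (‖D.a p‖ ^ 2 / (p : ℝ)) + K / T) *
                  (1 / (m : ℝ) ^ 2) := by
                  apply Finset.sum_le_sum
                  intro p hp
                  rw [Finset.sum_ite_eq']
                  split_ifs
                  · exact le_rfl
                  · positivity
              _ = (K / W * P0 + (PP a b T).card * (K / T)) * (1 / (m : ℝ) ^ 2) := by
                  rw [← Finset.sum_mul, Finset.sum_add_distrib, ← Finset.mul_sum, ← hP0,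
                    Finset.sum_const, nsmul_eq_mul]
              _ ≤ _ := by
                  apply mul_le_mul_of_nonneg_right _ (by positivity)
                  have e1 : K / W * P0 = K * (P0 / W) := by ring
                  have e2 : ((PP a b T).card : ℝ) * (K / T) ≤ K * (T ^ (1 / 2 : ℝ) / T) := by
                    calc ((PP a b T).card : ℝ) * (K / T) ≤ T ^ (1 / 2 : ℝ) * (K / T) := by gcongr
                      _ = _ := by ring
                  linarith
          have h40 : 0 ≤ ∑ j ∈ s, (if j.1 = j.2 * m then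
              ‖aw D κ (a * Real.log T) (b * Real.log T) W j.1 j.2‖ else 0) := by
            apply Finset.sum_nonneg
            intro j _
            split_ifs
            · exact norm_nonneg _
            · exact le_rfl
          have hTT : (T ^ (1 / 2 : ℝ) / T) ^ 2 = 1 / T := by
            rw [div_pow, ← Real.sqrt_eq_rpow, Real.sq_sqrt hTp.le]
            field_simp
          have hmm : (1 / (m : ℝ) ^ 2) ^ 2 ≤ 1 / (m : ℝ) ^ 2 := by
            have e1 : 1 / (m : ℝ) ^ 2 ≤ 1 := by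
              rw [div_le_one (by positivity)]
              exact one_le_pow₀ hm1
            have e0 : 0 ≤ 1 / (m : ℝ) ^ 2 := by positivity
            nlinarith
          calc _ ≤ ((K * (P0 / W) + K * (T ^ (1 / 2 : ℝ) / T)) * (1 / (m : ℝ) ^ 2)) ^ 2 :=
                pow_le_pow_left₀ h40 h4 2
            _ = (K * (P0 / W) + K * (T ^ (1 / 2 : ℝ) / T)) ^ 2 * (1 / (m : ℝ) ^ 2) ^ 2 := by
                rw [mul_pow]
            _ ≤ (2 * (K * (P0 / W)) ^ 2 + 2 * (K * (T ^ (1 / 2 : ℝ) / T)) ^ 2) *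
                (1 / (m : ℝ) ^ 2) := by
                apply mul_le_mul _ hmm (by positivity) (by positivity)
                nlinarith [sq_nonneg (K * (P0 / W) - K * (T ^ (1 / 2 : ℝ) / T))]
            _ = (2 * (K * (P0 / W)) ^ 2 + 2 * K ^ 2 * (T ^ (1 / 2 : ℝ) / T) ^ 2) *
                (1 / (m : ℝ) ^ 2) := by ring
            _ = _ := by
                rw [hTT]
                ring
      _ = (2 * K ^ 2 * (P0 / W) ^ 2 + 2 * K ^ 2 / T) *
          ∑ m ∈ Finset.Icc 2 M, (1 / (m : ℝ) ^ 2) := by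
          rw [← Finset.mul_sum]
      _ ≤ (2 * K ^ 2 * (P0 / W) ^ 2 + 2 * K ^ 2 / T) * Cs := by
          apply mul_le_mul_of_nonneg_left _ (by positivity)
          rw [hCs]
          exact hsum.sum_le_tsum _ (fun m _ => by positivity)
      _ = _ := by ring
  have hO : T * ((∑ q ∈ s, ‖aw D κ (a * Real.log T) (b * Real.log T) W q.1 q.2‖) ^ 2 *
      Real.exp (-(T / (4 * (T ^ γ) ^ 2)) ^ 2)) ≤ C1 ^ 2 := by
    have h5 : ∑ q ∈ s, ‖aw D κ (a * Real.log T) (b * Real.log T) W q.1 q.2‖ ≤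
        T * (T ^ A * C1) := by
      calc _ ≤ ∑ q ∈ s, T ^ A * C1 := by
            apply Finset.sum_le_sum
            intro q hq
            obtain ⟨q1, q2, q3, q4⟩ := hsm q hq
            obtain ⟨q5, q6, q7, q8, q9⟩ := hPP _ q3
            rw [norm_aw, hC1]
            apply mul_le_mul _ (Pool.Agent.W112.BH.aw_one hκ hAB hW q1 q5.one_lt.le q4)
              (norm_nonneg _) (by positivity)
            have e1 : ‖D.a q.1‖ ≤ T ^ (γ * A) := by
              refine (hA _ q1).trans ?_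
              rw [Real.rpow_mul hTp.le]
              exact Real.rpow_le_rpow (by positivity) (le_trans (by exact_mod_cast q2) hMT) hA0
            have e2 : ‖D.a q.2‖ ≤ T ^ (γ * A) := by
              refine (hA _ q5.one_lt.le).trans ?_
              rw [Real.rpow_mul hTp.le]
              exact Real.rpow_le_rpow (by positivity) q7 hA0
            calc ‖D.a q.1‖ * ‖D.a q.2‖ ≤ T ^ (γ * A) * T ^ (γ * A) := by gcongr
              _ = T ^ (γ * A + γ * A) := (Real.rpow_add hTp _ _).symm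
              _ ≤ T ^ A := Real.rpow_le_rpow_of_exponent_le hT1 (by nlinarith)
        _ = (s.card : ℝ) * (T ^ A * C1) := by rw [Finset.sum_const, nsmul_eq_mul]
        _ ≤ T * (T ^ A * C1) := by
            apply mul_le_mul_of_nonneg_right _ (by positivity)
            have h6 : s.card ≤ M * M := by
              calc s.card ≤ ((Finset.Icc 1 M) ×ˢ PP a b T).card := by
                    rw [hs]; exact Finset.card_filter_le _ _
                _ = M * (PP a b T).card := by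
                    rw [Finset.card_product, Nat.card_Icc]; simp
                _ ≤ M * M := by
                    apply Nat.mul_le_mul_left
                    calc (PP a b T).card ≤ (Finset.Icc 1 M).card := by
                          apply Finset.card_le_card
                          intro p hp
                          rw [Finset.mem_Icc]
                          exact ⟨(hPP p hp).1.one_lt.le, (hPP p hp).2.2.2.1⟩
                      _ = M := by rw [Nat.card_Icc]; simp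
            have hM0 : (0 : ℝ) ≤ M := by positivity
            calc (s.card : ℝ) ≤ (M : ℝ) * M := by exact_mod_cast h6
              _ ≤ T ^ γ * T ^ γ := by gcongr
              _ = T ^ (γ + γ) := (Real.rpow_add hTp _ _).symm
              _ ≤ T ^ (1 : ℝ) := Real.rpow_le_rpow_of_exponent_le (by linarith) (by linarith)
              _ = T := Real.rpow_one T
    have h50 : 0 ≤ ∑ q ∈ s, ‖aw D κ (a * Real.log T) (b * Real.log T) W q.1 q.2‖ :=
      Finset.sum_nonneg fun q _ => norm_nonneg _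
    have h7 : Real.exp (-(T / (4 * (T ^ γ) ^ 2)) ^ 2) ≤ (T ^ 3)⁻¹ * (T ^ A * T ^ A)⁻¹ := by
      calc Real.exp (-(T / (4 * (T ^ γ) ^ 2)) ^ 2) ≤ Real.exp (-((3 + 2 * A) * Real.log T)) := by
            apply Real.exp_le_exp.mpr; linarith
        _ = (T ^ 3)⁻¹ * (T ^ A * T ^ A)⁻¹ := by
            rw [← mul_inv, Real.exp_neg]
            congr 1
            rw [← Real.rpow_add hTp, ← Real.rpow_natCast, ← Real.rpow_add hTp,
              Real.rpow_def_of_pos hTp]
            congr 1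
            push_cast
            ring
    have hTA : 0 < T ^ A := by positivity
    calc _ ≤ T * ((T * (T ^ A * C1)) ^ 2 * ((T ^ 3)⁻¹ * (T ^ A * T ^ A)⁻¹)) := by gcongr
      _ = C1 ^ 2 := by field_simp
  have hT0' : 0 ≤ T := hTp.le
  have hPW : 0 ≤ P0 / W := by positivity
  calc C0 * T * (∑ j ∈ s, ∑ k ∈ s, (if j.1 * k.2 = k.1 * j.2 then
        ‖aw D κ (a * Real.log T) (b * Real.log T) W j.1 j.2‖ *
        ‖aw D κ (a * Real.log T) (b * Real.log T) W k.1 k.2‖ else 0) +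
      (∑ q ∈ s, ‖aw D κ (a * Real.log T) (b * Real.log T) W q.1 q.2‖) ^ 2 *
      Real.exp (-(T / (4 * (T ^ γ) ^ 2)) ^ 2))
      ≤ C0 * T * (C1 ^ 2 * C2 * (P0 / W) + (2 * K ^ 2 * Cs * (P0 / W) ^ 2 + 2 * K ^ 2 * Cs / T) +
      (∑ q ∈ s, ‖aw D κ (a * Real.log T) (b * Real.log T) W q.1 q.2‖) ^ 2 *
      Real.exp (-(T / (4 * (T ^ γ) ^ 2)) ^ 2)) := by
        apply mul_le_mul_of_nonneg_left _ (by positivity)
        have := hdiag.trans (add_le_add hDg hMu)
        linarith
    _ = C0 * T * (C1 ^ 2 * C2 * (P0 / W) + 2 * K ^ 2 * Cs * (P0 / W) ^ 2) +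
      C0 * (2 * K ^ 2 * Cs) + C0 * (T *
      ((∑ q ∈ s, ‖aw D κ (a * Real.log T) (b * Real.log T) W q.1 q.2‖) ^ 2 *
      Real.exp (-(T / (4 * (T ^ γ) ^ 2)) ^ 2))) := by
        field_simp
        ring
    _ ≤ C0 * T * (C1 ^ 2 * C2 * (P0 / W) + 2 * K ^ 2 * Cs * (P0 / W) ^ 2) +
      C0 * (2 * K ^ 2 * Cs) + C0 * C1 ^ 2 := by
        gcongr
    _ ≤ _ := by
        have e1 : 0 ≤ C0 * T * (P0 / W) := by positivity
        have e2 : 0 ≤ C0 * T * (P0 / W) ^ 2 := by positivity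
        have e3 : 0 ≤ C1 ^ 2 * C2 := by positivity
        have e4 : 0 ≤ 2 * K ^ 2 * Cs := by positivity
        have e5 : 0 ≤ C1 ^ 2 := by positivity
        nlinarith [mul_nonneg e1 e4, mul_nonneg e1 e5, mul_nonneg e2 e3, mul_nonneg e2 e5,
          mul_nonneg hC0.le e3, mul_nonneg hC0.le e4]

end Pool.Agent.W836.BG
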